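import Mathlib
import Pool.Agent.Helper56.Koszul.Base

/-! Piece KZ-5: from the monoid algebra to the quotient by the toric ideal. -/

namespace Pool.Agent.Helper73.KZ

open Pool.Agent.Helper56.Koszul MvPolynomial

universe u

/-- the ideal of all variables, as a submodule of `S^1` -/
noncomputable def mMod (k : Type u) [Field k] : Submodule (SR k) (Fin 1 → SR k) :=
  Submodule.span (SR k) (Set.range fun (b : Fin 28) (_ : Fin 1) => xv k b)

/-- the index set -/
abbrev Bs := {B : Finset (Fin 7) // B ∈ fanoBases}

/-- the set of the `b`-th mask -/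
def bset (b : Fin 28) : Finset (Fin 7) := Finset.univ.filter fun i => (bm b).testBit i.val

theorem bset_mem : ∀ b, bset b ∈ fanoBases := by decide

theorem bset_inj : Function.Injective bset := by decide

theorem card_bases : Fintype.card Bs = 28 := by
  rw [Fintype.card_coe]
  decide

/-- the index map -/
def idxF (b : Fin 28) : Bs := ⟨bset b, bset_mem b⟩

theorem idxF_bij : Function.Bijective idxF := by
  rw [Fintype.bijective_iff_injective_and_card]
  refine ⟨fun a b h => bset_inj (congrArg Subtype.val h), ?_⟩
  rw [card_bases]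
  simp

/-- the index equivalence -/
noncomputable def idx : Fin 28 ≃ Bs := Equiv.ofBijective idxF idxF_bij

theorem idx_apply (b : Fin 28) : (idx b).1 = bset b := rfl

theorem ev_inj : Function.Injective ev := by
  intro a b h
  apply bset_inj
  ext i
  have := congrFun h i
  simp only [ev] at this
  simp only [bset, Finset.mem_filter, Finset.mem_univ, true_and]
  by_cases ha : (bm a).testBit i.val <;> by_cases hb : (bm b).testBit i.val <;> simp_all

theorem eL_inj : Function.Injective eL := fun a b h => ev_inj (congrArg Subtype.val h)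

theorem tdeg_ev : ∀ b, ∑ i, ev b i = 3 := by decide

/-- elements of `Lam` of total degree 3 are generators -/
theorem eq_eL_of_tdeg {l : Lam} (h : tdeg l = 3) : ∃ b, l = eL b := by
  obtain ⟨l, hl⟩ := l
  obtain ⟨s, hs, rfl⟩ := AddSubmonoid.exists_multiset_of_mem_closure hl
  have key : ∀ t : Multiset (Fin 7 → ℕ), (∀ y ∈ t, y ∈ Set.range ev) →
      ∑ i, t.sum i = 3 * t.card := by
    intro t
    induction t using Multiset.induction_on with
    | empty => simp
    | cons a t ih =>
      intro ht
      obtain ⟨b, rfl⟩ := ht a (Multiset.mem_cons_self a t)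
      rw [Multiset.sum_cons, Multiset.card_cons]
      simp only [Pi.add_apply, Finset.sum_add_distrib]
      rw [tdeg_ev b, ih fun y hy => ht y (Multiset.mem_cons_of_mem hy)]
      ring
  have h1 := key s hs
  simp only [tdeg] at h
  have h2 : s.card = 1 := by omega
  obtain ⟨a, rfl⟩ := Multiset.card_eq_one.1 h2
  obtain ⟨b, hb⟩ := hs a (Multiset.mem_singleton_self a)
  refine ⟨b, ?_⟩
  apply Subtype.ext
  simp [eL, hb]

variable (k : Type u) [Field k]

/-- the presentation of the monoid algebra -/
noncomputable def psi : MvPolynomial Bs k →ₐ[k] SR k :=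
  aeval fun B => xv k (idx.symm B)

theorem psi_X (b : Fin 28) : psi k (X (idx b)) = xv k b := by
  simp [psi]

/-- the exponent map -/
noncomputable def expF : Lam →+ (Fin 7 →₀ ℕ) where
  toFun l := Finsupp.equivFunOnFinite.symm l.1
  map_zero' := by ext; simp
  map_add' := by intro a b; ext; simp

theorem expF_inj : Function.Injective expF := by
  intro a b h
  apply Subtype.ext
  exact Finsupp.equivFunOnFinite.symm.injective h

/-- the embedding in the polynomial ring -/
noncomputable def jmap : SR k →ₐ[k] MvPolynomial (Fin 7) k :=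
  AddMonoidAlgebra.mapDomainAlgHom k k expF

theorem jmap_inj : Function.Injective (jmap k) :=
  AddMonoidAlgebra.mapDomain_injective expF_inj

theorem expF_eL (b : Fin 28) : expF (eL b) = ∑ i ∈ bset b, Finsupp.single i 1 := by
  classical
  ext i
  rw [Finsupp.finsetSum_apply]
  simp only [expF, eL, AddMonoidHom.coe_mk, ZeroHom.coe_mk, Finsupp.equivFunOnFinite_symm_apply_apply,
    ev, bset, Finsupp.single_apply]
  simp

theorem toric_eq : toricMap k = (jmap k).comp (psi k) := by
  apply MvPolynomial.algHom_ext
  intro B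
  obtain ⟨b, rfl⟩ := idx.surjective B
  rw [AlgHom.comp_apply, psi_X]
  simp only [toricMap, aeval_X]
  rw [idx_apply, jmap, AddMonoidAlgebra.mapDomainAlgHom_apply, xv, AddMonoidAlgebra.mapDomain_single,
    expF_eL, single_eq_monomial, monomial_sum_one]
  rfl

theorem ker_psi : RingHom.ker (toricMap k) = RingHom.ker (psi k) := by
  ext x
  rw [RingHom.mem_ker, RingHom.mem_ker, toric_eq, AlgHom.comp_apply, map_eq_zero_iff _ (jmap_inj k)]

theorem single_mem (l : Fin 7 → ℕ) (hl : l ∈ Lam) :
    ∃ f, psi k f = AddMonoidAlgebra.single (⟨l, hl⟩ : Lam) 1 := by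
  induction hl using AddSubmonoid.closure_induction with
  | mem x hx =>
    obtain ⟨b, rfl⟩ := hx
    exact ⟨X (idx b), psi_X k b⟩
  | zero => exact ⟨1, map_one _⟩
  | add x y hx hy ihx ihy =>
    obtain ⟨f, hf⟩ := ihx
    obtain ⟨g, hg⟩ := ihy
    refine ⟨f * g, ?_⟩
    rw [map_mul, hf, hg, AddMonoidAlgebra.single_mul_single, one_mul]
    rfl

theorem psi_surj : Function.Surjective (psi k) := by
  intro x
  induction x using AddMonoidAlgebra.induction_on with
  | of m =>
    obtain ⟨f, hf⟩ := single_mem k m.1 m.2
    exact ⟨f, hf⟩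
  | add x y hx hy =>
    obtain ⟨f, rfl⟩ := hx
    obtain ⟨g, rfl⟩ := hy
    exact ⟨f + g, map_add _ _ _⟩
  | smul r x hx =>
    obtain ⟨f, rfl⟩ := hx
    exact ⟨r • f, map_smul _ _ _⟩

/-- the toric map multiplies degrees by three -/
theorem toric_component (f : MvPolynomial Bs k) (n : ℕ) :
    homogeneousComponent (3 * n) (toricMap k f) = toricMap k (homogeneousComponent n f) := by
  have hB : ∀ B : Bs, (∏ i ∈ B.1, (X i : MvPolynomial (Fin 7) k)).IsHomogeneous 3 := by
    intro B
    have h : ∀ i ∈ B.1, (X i : MvPolynomial (Fin 7) k).IsHomogeneous 1 := fun i _ =>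
      isHomogeneous_X k i
    have h2 := IsHomogeneous.prod B.1 (fun i => (X i : MvPolynomial (Fin 7) k)) (fun _ => 1) h
    have h3 : B.1.card = 3 := (Finset.mem_powersetCard.1 (Finset.mem_sdiff.1 B.2).1).2
    simpa [h3] using h2
  have hm : ∀ m, (toricMap k (homogeneousComponent m f)).IsHomogeneous (3 * m) := by
    intro m
    exact (homogeneousComponent_isHomogeneous m f).aeval _ hB
  conv_lhs => rw [← sum_homogeneousComponent f]
  rw [map_sum, map_sum]
  have h4 : ∀ m ∈ Finset.range (f.totalDegree + 1),
      homogeneousComponent (3 * n) (toricMap k (homogeneousComponent m f)) =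
        if n = m then toricMap k (homogeneousComponent m f) else 0 := by
    intro m _
    rw [homogeneousComponent_of_mem ((mem_homogeneousSubmodule _ _).2 (hm m))]
    by_cases h : n = m
    · simp [h]
    · rw [if_neg h, if_neg (by omega)]
  rw [Finset.sum_congr rfl h4, Finset.sum_ite_eq]
  split_ifs with h
  · rfl
  · rw [homogeneousComponent_eq_zero, map_zero]
    simpa using h

/-- degree one elements come from linear forms -/
theorem exists_linear {x : SR k} (hx : x ∈ S1 k) :
    ∃ f : MvPolynomial Bs k, f.IsHomogeneous 1 ∧ psi k f = x := by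
  classical
  refine ⟨∑ b : Fin 28, C (x.coeff (eL b)) * X (idx b), ?_, ?_⟩
  · apply IsHomogeneous.sum
    intro b _
    have := (isHomogeneous_C Bs (x.coeff (eL b))).mul (isHomogeneous_X k (idx b))
    simpa using this
  · have h1 : ∀ b ∈ (Finset.univ : Finset (Fin 28)),
        psi k (C (x.coeff (eL b)) * X (idx b)) =
          AddMonoidAlgebra.single (eL b) (x.coeff (eL b)) := by
      intro b _
      rw [map_mul, psi_X, ← algebraMap_eq, AlgHom.commutes, ← Algebra.smul_def, xv,
        AddMonoidAlgebra.smul_single, smul_eq_mul, mul_one]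
    rw [map_sum, Finset.sum_congr rfl h1]
    apply AddMonoidAlgebra.ext
    refine Finsupp.ext fun l => ?_
    rw [AddMonoidAlgebra.coeff_sum, Finsupp.finsetSum_apply]
    simp only [AddMonoidAlgebra.coeff_single, Finsupp.single_apply]
    by_cases h : tdeg l = 3
    · obtain ⟨b, rfl⟩ := eq_eL_of_tdeg h
      rw [Finset.sum_eq_single b]
      · simp
      · intro c _ hc
        rw [if_neg]
        exact fun h => hc (eL_inj h)
      · simp
    · have h0 : x.coeff l = 0 := by
        by_contra h0
        exact h (hx l h0)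
      rw [h0]
      apply Finset.sum_eq_zero
      intro c _
      split_ifs with hc
      · rw [hc, h0]
      · rfl

/-- the quotient by the toric ideal is the monoid algebra -/
noncomputable def qe : (MvPolynomial Bs k ⧸ RingHom.ker (toricMap k)) ≃+* SR k :=
  RingEquiv.ofBijective
    (Ideal.Quotient.lift (RingHom.ker (toricMap k)) (psi k : MvPolynomial Bs k →+* SR k)
      (fun a ha => by
        rw [ker_psi] at ha
        exact ha))
    ⟨RingHom.lift_injective_of_ker_le_ideal _ _ (by
        rw [ker_psi]
        exact le_rfl),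
      Ideal.Quotient.lift_surjective_of_surjective _ _ (psi_surj k)⟩

theorem qe_mk (f : MvPolynomial Bs k) :
    qe k (Ideal.Quotient.mk (RingHom.ker (toricMap k)) f) = psi k f := rfl

theorem mem_mMod {x : SR k} : (fun _ => x) ∈ mMod k ↔ x ∈ Ideal.span (Set.range (xv k)) := by
  constructor
  · intro h
    have h1 := Submodule.mem_map_of_mem (f := LinearMap.proj (R := SR k) (φ := fun _ : Fin 1 => SR k) 0) h
    rw [mMod, Submodule.map_span, ← Set.range_comp] at h1
    exact h1
  · intro h
    have h1 := Submodule.mem_map_of_mem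
      (f := LinearMap.pi (R := SR k) (fun _ : Fin 1 => (LinearMap.id : SR k →ₗ[SR k] SR k))) h
    rw [Ideal.span, Submodule.map_span, ← Set.range_comp] at h1
    exact h1

theorem mem_span_iff {x : MvPolynomial Bs k ⧸ RingHom.ker (toricMap k)} :
    x ∈ Ideal.span (Set.range fun s : Bs => Ideal.Quotient.mk (RingHom.ker (toricMap k)) (X s)) ↔
      qe k x ∈ Ideal.span (Set.range (xv k)) := by
  have h1 : Ideal.span (Set.range (xv k)) =
      Ideal.map (qe k) (Ideal.span (Set.range fun s : Bs =>
        Ideal.Quotient.mk (RingHom.ker (toricMap k)) (X s))) := by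
    rw [Ideal.map_span, ← Set.range_comp]
    congr 1
    ext y
    simp only [Set.mem_range, Function.comp_apply, qe_mk]
    constructor
    · rintro ⟨b, rfl⟩
      exact ⟨idx b, psi_X k b⟩
    · rintro ⟨B, rfl⟩
      obtain ⟨b, rfl⟩ := idx.surjective B
      exact ⟨b, (psi_X k b).symm⟩
  rw [h1]
  constructor
  · intro h
    exact Ideal.mem_map_of_mem _ h
  · intro h
    obtain ⟨y, hy, hxy⟩ := (Ideal.mem_map_iff_of_surjective _ (qe k).surjective).1 h
    rwa [← (qe k).injective hxy]

/-- transport of matrix products -/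
theorem mulVec_map {S T : Type*} [CommRing S] [CommRing T] (e : S ≃+* T) {m n : ℕ}
    (M : Matrix (Fin m) (Fin n) T) (y : Fin n → S) :
    (M.map e.symm).mulVec y = fun i => e.symm (M.mulVec (fun j => e (y j)) i) := by
  ext i
  have := RingHom.map_mulVec (e.symm : T →+* S) M (fun j => e (y j)) i
  simp only [RingHom.coe_coe] at this
  rw [this]
  congr 1
  ext j
  simp

/-- KZ-5 (from the monoid algebra to the quotient by the toric ideal). -/
theorem isKoszul_of_SR (k : Type u) [Field k] (β : ℕ → ℕ)
    (d : ∀ i, Matrix (Fin (β i)) (Fin (β (i + 1))) (SR k)) (h0 : β 0 = 1)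
    (h1 : ∀ i p q, d i p q ∈ S1 k)
    (h2 : ∀ x : Fin (β 0) → SR k, (∃ y, (d 0).mulVec y = x) ↔ ∀ p, (fun _ => x p) ∈ mMod k)
    (h3 : ∀ i (x : Fin (β (i + 1)) → SR k),
      (∃ y, (d (i + 1)).mulVec y = x) ↔ (d i).mulVec x = 0) :
    IsKoszul (RingHom.ker (toricMap k)) := by
  have hex : ∀ i (x : Fin (β i) → MvPolynomial Bs k ⧸ RingHom.ker (toricMap k)),
      (∃ y, ((d i).map (qe k).symm).mulVec y = x) ↔
        ∃ y, (d i).mulVec y = fun p => qe k (x p) := by
    intro i x
    constructor
    · rintro ⟨y, rfl⟩
      refine ⟨fun j => qe k (y j), ?_⟩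
      refine funext fun p => ?_
      rw [mulVec_map]
      simp
    · rintro ⟨y, hy⟩
      refine ⟨fun j => (qe k).symm (y j), ?_⟩
      rw [mulVec_map]
      refine funext fun p => ?_
      simp only [RingEquiv.apply_symm_apply]
      rw [hy]
      simp
  refine ⟨?_, β, fun i => (d i).map (qe k).symm, h0, ?_, ?_, ?_⟩
  · intro f hf n
    rw [RingHom.mem_ker] at hf ⊢
    have := toric_component k f n
    rw [hf, map_zero] at this
    exact this.symm
  · intro i p q
    obtain ⟨f, hf, hfx⟩ := exists_linear k (h1 i p q)
    refine ⟨f, hf, ?_⟩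
    apply (qe k).injective
    rw [qe_mk, hfx]
    simp
  · intro x
    rw [hex, h2]
    simp only [mem_mMod]
    exact forall_congr' fun p => (mem_span_iff k).symm
  · intro i x
    rw [hex, h3, mulVec_map]
    constructor
    · intro h
      refine funext fun p => ?_
      rw [h]
      simp
    · intro h
      refine funext fun p => ?_
      have := congrFun h p
      simpa using this

end Pool.Agent.Helper73.KZ
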